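import Mathlib
import Pool.Agent.H530Z.IndepMain

set_option autoImplicit false

namespace Pool.Agent.Results.MP_79deac_al.ANoIndependentPair

open Pool.Agent.H530Z.Indep

/-- There is an uncountable Zariski-cofinite abelian group that has no pair of independent
Hausdorff group topologies. -/
theorem result : ∃ (G : Type) (_ : AddCommGroup G), Uncountable G ∧ ZCofinite G ∧
    ∀ τ₁ τ₂ : TopologicalSpace G, HausdorffGroupTop G τ₁ → HausdorffGroupTop G τ₂ →
      ¬ Independent τ₁ τ₂ :=
  main

end Pool.Agent.Results.MP_79deac_al.ANoIndependentPair
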